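import Pool.Agent.J6H71.Mu.Cri
import Pool.Agent.J6H48.MuS.FinDec
import Pool.Agent.J6H23.MuS.Ab

/-!
# The vanishing of the `μ`-invariant of an abelian extension: a criterion at finite level

Let `k` be a number field (in the problem, an imaginary quadratic field), `K` a finite abelian extension
of `k`, and `p` a prime number. For a number field `L` let `d(L)` be the order of `Cl(L) / p`
(`s = false`, the case of the problem), or of its quotient by the classes of the primes above `p`
(`s = true`): this is the largest degree of an abelian extension of `L` of exponent `p` which is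
unramified at all places and, if `s = true`, in which the primes above `p` split completely. `RkLe p s L C`
says `d(L) ≤ C`, and `MuVanishes p s L` says that the numbers `d(L R)` are bounded, where `R` runs through the
layers of the cyclotomic `ℤ_p`-extension of `ℚ`; the `L R` are the layers of the one of `L`.

Let `T` be a nonempty finite set of fields `E` between `k` and `K` with `μ(E) = 0`; for an imaginary
quadratic field `k` one can take `k`, or all fields between `k` and `K` which are abelian over `ℚ`
(Ferrero-Washington). Then `μ(K) = 0` if and only if each cyclic extension `C` of `k` in `K`, of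
degree prime to `p` and not contained in one of the fields in `T`, is *good*, i.e. one of a list
of inequalities between the numbers `d` at finite layers holds. Let `f` be the order of `p` modulo `[C : k]`.
One needs fields `P_i`, `N_j` between `k` and `K`, of degree prime to `p` over `k`, such that every cyclic extension
of `k` in `K` of degree prime to `p` is contained in at least as many of the `P_i` as of the `N_j`;
let `w` be the number of the `P_i` which contain `C` minus the number of the `N_j` which
contain `C`. The field `C` is good if one of the following holds for some layers.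

* `∏ d(P_i R) / ∏ d(N_j R) < p ^ (f w ([k R : k] - t))`, where `t` is such that no field `k R'` has more
  than `t` primes which lie above a prime of `k` above `p` that splits completely in `C`.
* `∏ d(P_i R) / ∏ d(N_j R) < ∏ d(P_i R₁) / ∏ d(N_j R₁) * p ^ (f w ([k R : k] - [k R₁ : k]))`, where
  `R₁ ≤ R` and `[k : ℚ] < p [R₁ : ℚ]`.

For example `μ(K) = 0` if `d(K R) < d(K R₁) p ^ (f ([k R : k] - [k R₁ : k]))` for the smallest `f`. If
`[K : k]` is prime to `p`, and if the layers can be chosen in `R₀`, then
`d(K R') ≤ d(K R₀) p ^ [K : ℚ] ∏ d(E R') ^ [E : k]` for all layers `R'` which contain `R₀`.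

If `p` divides `[K : k]`, then `p` is odd or `k` is totally complex, since we use Iwasawa's
theorem on extensions of degree a power of `p`, which is proved here in this case.
-/

set_option autoImplicit false

namespace Pool.Agent.Results.MP_b78433_nt.CyclicCriterion

open Pool.Agent.Q60.MU Pool.Agent.J6H14.DMu Pool.Agent.J6H71.Mu
open scoped ComplexConjugate

theorem result (p : ℕ) [Fact p.Prime] (s : Bool) (k K : Fl) (hfd : FiniteDimensional ℚ K)
    (hK : IsAbelianOver k K)
    (hreal : ¬ p ∣ rdeg k K ∨ p ≠ 2 ∨ ∀ ι : Qb →+* ℂ, ∃ x ∈ k, conj (ι x) ≠ ι x)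
    (T : Finset Fl) (hne : T.Nonempty) (hT : ∀ E ∈ T, k ≤ E ∧ E ≤ K) :
    ((∀ E ∈ T, MuVanishes p s E) →
      (MuVanishes p s K ↔ ∀ C, CyclicIn p k K C → (∀ E ∈ T, ¬ C ≤ E) →
        ∃ m₀ R₀, Layer p m₀ R₀ ∧ GoodAt p s k K C R₀)) ∧
    (¬ p ∣ rdeg k K → ∀ (m₀ m' : ℕ) (R₀ R' : Fl), Layer p m₀ R₀ → Layer p m' R' → R₀ ≤ R' →
      (∀ C, CyclicIn p k K C → (∀ E ∈ T, ¬ C ≤ E) → GoodAt p s k K C R₀) →
      ∀ (C₀ : ℕ) (c : Fl → ℕ), RkLe p s (K ⊔ R₀) C₀ → (∀ E ∈ T, RkLe p s (E ⊔ R') (c E)) →
        RkLe p s (K ⊔ R') (C₀ * p ^ deg K * ∏ E ∈ T, c E ^ rdeg k E)) := by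
  have hfk : FiniteDimensional ℚ k := Pool.Agent.W5h33.DF.fd_of_le hK.1
  refine ⟨fun h => ?_, fun hpK m₀ m' R₀ R' hR₀ hR' hRR hcrit C₀ c hC₀ hc => ?_⟩
  · exact criterion Pool.Agent.J6H40.MuS.onePrime Pool.Agent.J6H94.MuS.inertia_surj'
      Pool.Agent.J6H48.MuS.finDec Pool.Agent.J6H52.MuS.iwasawa Pool.Agent.J6H23.MuS.abelianSimple
      hK hreal T hne fun E hE => ⟨(hT E hE).1, (hT E hE).2, h E hE⟩
  · exact core_bound Pool.Agent.J6H40.MuS.onePrime Pool.Agent.J6H94.MuS.inertia_surj'
      Pool.Agent.J6H23.MuS.abelianSimple hK hpK T hne hT hR₀ hR' hRR hcrit hC₀ c hc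

end Pool.Agent.Results.MP_b78433_nt.CyclicCriterion
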